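import Mathlib

namespace Pool.Agent.Results.MP_18f3df_al.Yes

open Set

/-- A family of finitary operations; `C n` holds the operations of arity `n + 1`. -/
abbrev Ops (A : Type) := ∀ n : ℕ, Set ((Fin (n + 1) → A) → A)

def IsClone {A : Type} (C : Ops A) : Prop :=
  (∀ n (i : Fin (n + 1)), (fun x => x i) ∈ C n) ∧
  ∀ n m (f : (Fin (n + 1) → A) → A) (g : Fin (n + 1) → (Fin (m + 1) → A) → A),
    f ∈ C n → (∀ i, g i ∈ C m) → (fun x => f (fun i => g i x)) ∈ C m

/-- Polymorphisms of a metric space: non-expansive maps for the maximum metric. -/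
def Pol (U : Type) [MetricSpace U] : Ops U := fun _ => {f | LipschitzWith 1 f}

/-- `U` is a countable homogeneous metric space with distances in `D` into which every finite
metric space with distances in `D` embeds. -/
structure IsUrysohn (U : Type) [MetricSpace U] (D : Set ℝ) : Prop where
  countable : Countable U
  dist_mem : ∀ x y : U, dist x y ∈ D
  univ : ∀ (X : Type) [MetricSpace X] [Finite X], (∀ x y : X, dist x y ∈ D) →
    ∃ e : X → U, Isometry e
  homog : ∀ (s : Finset U) (f : U → U), (∀ x ∈ s, ∀ y ∈ s, dist (f x) (f y) = dist x y) →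
    ∃ g : U ≃ᵢ U, ∀ x ∈ s, g x = f x

/-- Non-negative rationals. -/
def QP : Set ℝ := {r | 0 ≤ r ∧ ∃ q : ℚ, r = q}

structure Cap (D : Set ℝ) (τ : ℝ → ℝ) : Prop where
  sub : D ⊆ QP
  mem : ∀ r ∈ QP, τ r ∈ D
  fix : ∀ r ∈ D, τ r = r
  mono : Monotone τ
  add : ∀ r s, 0 ≤ r → 0 ≤ s → τ (r + s) ≤ τ r + τ s
  le : ∀ r, τ r ≤ r
  one : (1 : ℝ) ∈ D
  max : ∀ r ∈ D, ∀ s ∈ D, max r s ∈ D

lemma QP.add {r s : ℝ} (h : r ∈ QP) (h' : s ∈ QP) : r + s ∈ QP := by
  obtain ⟨a, p, rfl⟩ := h
  obtain ⟨b, q, rfl⟩ := h'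
  exact ⟨by positivity, p + q, by simp⟩

lemma lc {X Y Z : Type} [PseudoEMetricSpace X] [PseudoEMetricSpace Y] [PseudoEMetricSpace Z]
    {f : Y → Z} {g : X → Y} (hf : LipschitzWith 1 f) (hg : LipschitzWith 1 g) :
    LipschitzWith 1 fun x => f (g x) := by
  have := hf.comp hg
  rwa [one_mul] at this

lemma rec_ex {U : Type} [Inhabited U] (P : ℕ → (ℕ → U) → U → Prop)
    (hP : ∀ n E E', (∀ i < n, E i = E' i) → ∀ z, P n E z → P n E' z)
    (step : ∀ n E, (∀ i < n, P i E (E i)) → ∃ z, P n E z) : ∃ E, ∀ n, P n E (E n) := by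
  classical
  let F : ∀ n, (∀ i, i < n → U) → U := fun n IH =>
    if h : ∃ z, P n (fun i => if hi : i < n then IH i hi else default) z then h.choose else default
  let E : ℕ → U := wellFounded_lt.fix F
  refine ⟨E, fun n => ?_⟩
  induction n using Nat.strong_induction_on with
  | _ n ih =>
    obtain ⟨z, hz⟩ := step n E ih
    have e : E n = F n (fun i _ => E i) := WellFounded.fix_eq _ _ _
    have h : ∃ z, P n (fun i => if hi : i < n then E i else default) z :=
      ⟨z, hP n _ _ (fun i hi => by simp [hi]) z hz⟩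
    rw [e]
    simp only [F, dif_pos h]
    exact hP n _ _ (fun i hi => by simp [hi]) _ h.choose_spec

variable {U : Type} [MetricSpace U] {D : Set ℝ} {τ : ℝ → ℝ}

lemma ext (hU : IsUrysohn U D) (hc : Cap D τ) (s : Finset U) (g : U → ℝ) (gD : ∀ x, g x ∈ D)
    (h1 : ∀ x y, g x ≤ g y + dist x y) (h2 : ∀ x y, dist x y ≤ g x + g y) :
    ∃ z, ∀ w ∈ s, dist z w = g w := by
  classical
  have g0 : ∀ x, 0 ≤ g x := fun x => (hc.sub (gD x)).1
  by_cases h0 : ∃ x, g x = 0
  · obtain ⟨x, hx⟩ := h0
    refine ⟨x, fun w _ => le_antisymm (by simpa [hx] using h2 x w) ?_⟩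
    simpa [hx, dist_comm] using h1 w x
  push Not at h0
  let d : Option s → Option s → ℝ := fun a b => match a, b with
    | none, none => 0
    | none, some y => g y
    | some x, none => g x
    | some x, some y => dist x.1 y.1
  letI : MetricSpace (Option s) :=
    { dist := d
      dist_self := by rintro (_ | x) <;> simp [d]
      dist_comm := by rintro (_ | x) (_ | y) <;> simp [d, dist_comm]
      dist_triangle := by
        rintro (_ | x) (_ | y) (_ | z) <;> simp only [d]
        · simp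
        · simp
        · linarith [g0 y]
        · linarith [h1 z y, dist_comm z.1 y.1]
        · simp
        · exact h2 _ _
        · linarith [h1 x y]
        · exact dist_triangle _ _ _
      eq_of_dist_eq_zero := by
        rintro (_ | x) (_ | y) h <;> simp only [d] at h
        · rfl
        · exact absurd h (h0 _)
        · exact absurd h (h0 _)
        · rw [Subtype.ext (dist_eq_zero.1 h)] }
  obtain ⟨e, he⟩ := hU.univ (Option s) (by
    rintro (_ | x) (_ | y)
    · have := hc.mem 0 ⟨le_rfl, 0, by simp⟩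
      rwa [le_antisymm (hc.le 0) (hc.sub this).1] at this
    · exact gD _
    · exact gD _
    · exact hU.dist_mem _ _)
  let f : U → U := fun y => if h : ∃ x : s, e (some x) = y then h.choose else y
  have hf : ∀ x : s, f (e (some x)) = x := fun x => by
    have h : ∃ x' : s, e (some x') = e (some x) := ⟨x, rfl⟩
    simp only [f, dif_pos h]
    rw [Option.some_injective _ (he.injective h.choose_spec)]
  obtain ⟨k, hk⟩ := hU.homog (Finset.univ.image fun x : s => e (some x)) f (by
    simp only [Finset.mem_image, Finset.mem_univ, true_and]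
    rintro _ ⟨x, rfl⟩ _ ⟨y, rfl⟩
    rw [hf, hf, he.dist_eq]; rfl)
  refine ⟨k (e none), fun w hw => ?_⟩
  have := hk (e (some ⟨w, hw⟩)) (by simp)
  rw [hf] at this
  conv_lhs => rw [show w = k (e (some ⟨w, hw⟩)) from this.symm]
  rw [k.dist_eq, he.dist_eq]; rfl

lemma kat (hU : IsUrysohn U D) (hc : Cap D τ) {ι : Type} (T : Finset ι) (hT : T.Nonempty)
    (a : ι → U) (r : ι → ℝ) (hr : ∀ i, r i ∈ QP)
    (h : ∀ i ∈ T, ∀ j ∈ T, dist (a i) (a j) ≤ r i + r j) (s : Finset U) :
    ∃ z, ∀ w ∈ s, dist z w = τ (T.inf' hT fun i => r i + dist (a i) w) := by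
  have q : ∀ w, (T.inf' hT fun i => r i + dist (a i) w) ∈ QP := fun w => by
    obtain ⟨i, -, e⟩ := T.exists_mem_eq_inf' hT fun i => r i + dist (a i) w
    rw [e]; exact QP.add (hr i) (hc.sub (hU.dist_mem _ _))
  refine ext hU hc s _ (fun w => hc.mem _ (q w)) (fun x y => ?_) (fun x y => ?_)
  · conv_rhs => rw [← hc.fix _ (hU.dist_mem x y)]
    refine le_trans (hc.mono ?_) (hc.add _ _ (q y).1 dist_nonneg)
    obtain ⟨i, hi, e⟩ := T.exists_mem_eq_inf' hT fun i => r i + dist (a i) y
    rw [e]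
    refine (Finset.inf'_le _ hi).trans ?_
    linarith [dist_triangle_right (a i) x y, dist_triangle (a i) y x, dist_comm x y]
  · rw [← hc.fix _ (hU.dist_mem x y)]
    refine le_trans (hc.mono ?_) (hc.add _ _ (q x).1 (q y).1)
    obtain ⟨i, hi, e⟩ := T.exists_mem_eq_inf' hT fun i => r i + dist (a i) x
    obtain ⟨j, hj, e'⟩ := T.exists_mem_eq_inf' hT fun i => r i + dist (a i) y
    rw [e, e']
    linarith [h i hi j hj, dist_triangle4 x (a i) (a j) y, dist_comm x (a i)]

lemma hyp (hU : IsUrysohn U D) (hc : Cap D τ) {ι : Type} (T : Finset ι) (hT : T.Nonempty)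
    (a : ι → U) (r : ι → ℝ) (hr : ∀ i, r i ∈ QP)
    (h : ∀ i ∈ T, ∀ j ∈ T, dist (a i) (a j) ≤ r i + r j) : ∃ z, ∀ i ∈ T, dist z (a i) ≤ r i := by
  classical
  obtain ⟨z, hz⟩ := kat hU hc T hT a r hr h (T.image a)
  refine ⟨z, fun i hi => ?_⟩
  rw [hz _ (Finset.mem_image_of_mem _ hi)]
  exact (hc.le _).trans ((Finset.inf'_le _ hi).trans (by simp))

lemma nice [Nonempty U] (hU : IsUrysohn U D) (hc : Cap D τ) {X : Type} [Countable X] [Nonempty X]
    (d : X → X → ℝ) (d0 : ∀ x, d x x = 0) (ds : ∀ x y, d x y = d y x)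
    (dt : ∀ x y z, d x z ≤ d x y + d y z) (dD : ∀ x y, d x y ∈ D) :
    ∃ e : X → U, (∀ x y, dist (e x) (e y) = d x y) ∧ ∀ f : X → U,
      (∀ x y, dist (f x) (f y) ≤ d x y) → ∃ F : U → U, LipschitzWith 1 F ∧ ∀ x, F (e x) = f x := by
  classical
  haveI := hU.countable
  haveI : Inhabited U := Classical.inhabited_of_nonempty inferInstance
  obtain ⟨x, hx⟩ := exists_surjective_nat X
  obtain ⟨u, hu⟩ := exists_surjective_nat U
  obtain ⟨E, hE⟩ := rec_ex (fun n E z => (∀ i < n, dist z (E i) = d (x n) (x i)) ∧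
      ∀ k < n, ∃ i < n, dist z (u k) = τ (d (x n) (x i) + dist (E i) (u k))) (by
    intro n E E' h z hz
    refine ⟨fun i hi => h i hi ▸ hz.1 i hi, fun k hk => ?_⟩
    obtain ⟨i, hi, e⟩ := hz.2 k hk
    exact ⟨i, hi, h i hi ▸ e⟩) (by
    intro n E ih
    rcases Nat.eq_zero_or_pos n with rfl | hn
    · exact ⟨default, by simp⟩
    have iso : ∀ i < n, ∀ j < n, dist (E i) (E j) = d (x i) (x j) := by
      intro i hi j hj
      rcases lt_trichotomy i j with c | rfl | c
      · rw [dist_comm, ds]; exact (ih j hj).1 i c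
      · simp [d0]
      · exact (ih i hi).1 j c
    have hT : (Finset.range n).Nonempty := ⟨0, by simpa using hn⟩
    obtain ⟨z, hz⟩ := kat hU hc (Finset.range n) hT E (fun i => d (x n) (x i))
      (fun i => hc.sub (dD _ _)) (fun i hi j hj => by
        rw [iso i (by simpa using hi) j (by simpa using hj), ds (x n) (x i)]; exact dt _ _ _)
      ((Finset.range n).image E ∪ (Finset.range n).image u)
    refine ⟨z, fun i hi => ?_, fun k hk => ?_⟩
    · rw [hz _ (Finset.mem_union_left _ (Finset.mem_image_of_mem _ (by simpa using hi))),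
        ← hc.fix _ (dD (x n) (x i))]
      congr 1
      refine le_antisymm ((Finset.inf'_le _ (by simpa using hi : i ∈ _)).trans (by simp)) ?_
      refine Finset.le_inf' _ _ fun j hj => ?_
      rw [iso j (by simpa using hj) i hi]; exact dt _ _ _
    · rw [hz _ (Finset.mem_union_right _ (Finset.mem_image_of_mem _ (by simpa using hk)))]
      obtain ⟨i, hi, e⟩ := (Finset.range n).exists_mem_eq_inf' hT
        fun i => d (x n) (x i) + dist (E i) (u k)
      exact ⟨i, by simpa using hi, by rw [e]⟩)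
  have iso : ∀ i j, dist (E i) (E j) = d (x i) (x j) := by
    intro i j
    rcases lt_trichotomy i j with c | rfl | c
    · rw [dist_comm, ds]; exact (hE j).1 i c
    · simp [d0]
    · exact (hE i).1 j c
  refine ⟨fun y => E (Function.surjInv hx y), fun y y' => by
    simp only [iso, Function.surjInv_eq], fun f hf => ?_⟩
  have lip : ∀ (G : ℕ → U) k, (∀ i < k, ∀ j < i, dist (G i) (G j) ≤ dist (u i) (u j)) →
      ∀ i < k, ∀ j < k, dist (G i) (G j) ≤ dist (u i) (u j) := by
    intro G k h i hi j hj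
    rcases lt_trichotomy i j with c | rfl | c
    · rw [dist_comm, dist_comm (u i)]; exact h j hj i c
    · simp
    · exact h i hi j c
  obtain ⟨G, hG⟩ := rec_ex (fun k G z => (∀ n, dist z (f (x n)) ≤ dist (u k) (E n)) ∧
      ∀ j < k, dist z (G j) ≤ dist (u k) (u j))
    (fun n E E' h z hz => ⟨hz.1, fun i hi => h i hi ▸ hz.2 i hi⟩) (by
    intro k G ih
    obtain ⟨z, hz⟩ := hyp hU hc ((Finset.range (k + 1)).disjSum (Finset.range k))
      ⟨Sum.inl 0, by simp⟩ (Sum.elim (fun i => f (x i)) G)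
      (Sum.elim (fun i => dist (u k) (E i)) (fun j => dist (u k) (u j)))
      (by rintro (i | i) <;> exact hc.sub (hU.dist_mem _ _)) (by
        rintro (i | i) hi (j | j) hj <;>
          simp only [Sum.elim_inl, Sum.elim_inr, Finset.inl_mem_disjSum, Finset.inr_mem_disjSum,
            Finset.mem_range] at hi hj ⊢
        · exact (hf _ _).trans (iso i j ▸ dist_triangle_left _ _ _)
        · rw [dist_comm, add_comm]; exact ((ih j hj).1 i).trans (dist_triangle_left _ _ _)
        · exact ((ih i hi).1 j).trans (dist_triangle_left _ _ _)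
        · exact (lip G k (fun i hi => (ih i hi).2) i hi j hj).trans (dist_triangle_left _ _ _))
    refine ⟨z, fun n => ?_, fun j hj => hz (Sum.inr j) (by simpa using hj)⟩
    induction n using Nat.strong_induction_on with
    | _ n ihn =>
      by_cases hn : n < k + 1
      · exact hz (Sum.inl n) (by simpa using hn)
      obtain ⟨i, hi, e⟩ := (hE n).2 k (by omega)
      rw [dist_comm (u k), e, ← hc.fix _ (hU.dist_mem z _)]
      refine hc.mono ?_
      linarith [ihn i hi, dist_triangle_right z (f (x n)) (f (x i)), hf (x n) (x i),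
        dist_comm (u k) (E i)])
  refine ⟨fun y => G (Function.surjInv hu y), LipschitzWith.mk_one fun y y' => ?_, fun y => ?_⟩
  · have := lip G _ (fun i _ => (hG i).2) _ (Nat.lt_succ_of_le (le_max_left
      (Function.surjInv hu y) (Function.surjInv hu y'))) _ (Nat.lt_succ_of_le (le_max_right _ _))
    simpa only [Function.surjInv_eq] using this
  · have := (hG (Function.surjInv hu (E (Function.surjInv hx y)))).1 (Function.surjInv hx y)
    simpa only [Function.surjInv_eq, dist_self, dist_le_zero] using this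

lemma walk (hU : IsUrysohn U D) (hc : Cap D τ) (t : ℕ → U) :
    ∃ p : ℕ → ℕ × U, (∀ j, dist (p j).2 (p (j + 1)).2 ≤ 1) ∧ ∀ n, ∃ j, p j = (n, t n) := by
  classical
  have : ∀ y z : U, ∃ w, dist w y ≤ 1 ∧ dist w z ≤ max (dist y z - 1) 0 := by
    intro y z
    obtain ⟨w, hw⟩ := hyp hU hc Finset.univ ⟨true, Finset.mem_univ _⟩
      (fun b => cond b y z) (fun b => cond b 1 (max (dist y z - 1) 0)) (by
        rintro (_ | _)
        · obtain ⟨-, q, hq⟩ := hc.sub (hU.dist_mem y z)
          exact ⟨le_max_right _ _, max (q - 1) 0, by simp [hq]⟩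
        · exact hc.sub hc.one) (by
        have := le_max_left (dist y z - 1) 0
        have := le_max_right (dist y z - 1) 0
        rintro (_ | _) - (_ | _) - <;> simp only [cond, dist_self, dist_comm z y] <;> linarith)
    exact ⟨w, hw true (Finset.mem_univ _), hw false (Finset.mem_univ _)⟩
  choose w hw1 hw2 using this
  let st : ℕ × U → ℕ × U := fun q => if q.2 = t q.1 then (q.1 + 1, q.2) else (q.1, w q.2 (t q.1))
  have reach : ∀ (N : ℕ) n y, dist y (t n) ≤ N → ∃ j, st^[j] (n, y) = (n, t n) := by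
    intro N
    induction N with
    | zero => intro n y h; exact ⟨0, by simpa using h⟩
    | succ N ih =>
      intro n y h
      by_cases e : y = t n
      · exact ⟨0, by simp [e]⟩
      obtain ⟨j, hj⟩ := ih n (w y (t n)) ((hw2 _ _).trans (max_le (by push_cast at h; linarith)
        (by positivity)))
      exact ⟨j + 1, by simpa [st, e] using hj⟩
  refine ⟨fun j => st^[j] (0, t 0), fun j => ?_, fun n => ?_⟩
  · simp only [Function.iterate_succ_apply', st]
    split_ifs
    · simp
    · rw [dist_comm]; exact hw1 _ _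
  · induction n with
    | zero => exact ⟨0, rfl⟩
    | succ n ih =>
      obtain ⟨j, hj⟩ := ih
      obtain ⟨N, hN⟩ := exists_nat_ge (dist (t n) (t (n + 1)))
      obtain ⟨i, hi⟩ := reach N (n + 1) (t n) hN
      refine ⟨i + (1 + j), ?_⟩
      simp only at hj ⊢
      rw [Function.iterate_add_apply, Function.iterate_add_apply, hj]
      simpa [st] using hi

lemma sierp [Nonempty U] (hU : IsUrysohn U D) (hc : Cap D τ) (s : ℕ → U → U)
    (hs : ∀ n, LipschitzWith 1 (s n)) : ∃ F A B : U → U, LipschitzWith 1 F ∧ LipschitzWith 1 A ∧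
      LipschitzWith 1 B ∧ ∀ n, ∃ j, ∀ y, s n y = F (A^[j] (B y)) := by
  classical
  haveI := hU.countable
  obtain ⟨o⟩ := ‹Nonempty U›
  obtain ⟨p, hp1, hp2⟩ := walk hU hc (fun n => s n o)
  let d0 : ℕ × U → ℕ × U → ℝ := fun a b =>
    if a.1 = b.1 then dist a.2 b.2 else dist a.2 o + |(a.1 : ℝ) - b.1| + dist o b.2
  have q0 : ∀ a b, d0 a b ∈ QP := fun a b => by
    simp only [d0]
    split_ifs
    · exact hc.sub (hU.dist_mem _ _)
    · exact QP.add (QP.add (hc.sub (hU.dist_mem _ _)) ⟨abs_nonneg _, |(a.1 : ℚ) - b.1|, by simp⟩)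
        (hc.sub (hU.dist_mem _ _))
  obtain ⟨e, he, hx⟩ := nice hU hc (fun a b => τ (d0 a b))
    (fun a => by simp only [d0, if_true]; rw [hc.fix _ (hU.dist_mem _ _), dist_self])
    (fun a b => by
      congr 1
      simp only [d0, eq_comm (a := a.1)]
      split_ifs
      · exact dist_comm _ _
      · rw [abs_sub_comm, dist_comm a.2, dist_comm b.2]; ring)
    (fun a b c => by
      refine le_trans (hc.mono ?_) (hc.add _ _ (q0 _ _).1 (q0 _ _).1)
      obtain ⟨i, a⟩ := a
      obtain ⟨j, b⟩ := b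
      obtain ⟨k, c⟩ := c
      have := abs_sub_le (i : ℝ) j k
      have := dist_triangle a b c
      have := dist_triangle a o c
      have := dist_triangle a b o
      have := dist_triangle o b c
      have := @dist_nonneg _ _ b o
      have := @dist_nonneg _ _ o b
      have := abs_nonneg ((i : ℝ) - j)
      have := abs_nonneg ((j : ℝ) - k)
      simp only [d0]
      split_ifs <;> first | linarith | omega | (subst_vars; linarith))
    (fun a b => hc.mem _ (q0 a b))
  obtain ⟨A, hA, hA'⟩ := hx (fun a => e (a.1 + 1, a.2)) (fun a b => by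
    rw [he]; simp [d0])
  let G : ℕ → U → U := fun j y => if (p j).2 = s (p j).1 o then s (p j).1 y else (p j).2
  have G0 : ∀ j, G j o = (p j).2 := fun j => by
    simp only [G]; split_ifs with h
    · exact h.symm
    · rfl
  have G1 : ∀ j y z, dist (G j y) (G j z) ≤ dist y z := fun j y z => by
    simp only [G]; split_ifs
    · simpa using (hs _).dist_le_mul y z
    · simp
  have G2 : ∀ i j, dist (p i).2 (p j).2 ≤ |(i : ℝ) - j| := by
    have : ∀ i j, i ≤ j → dist (p i).2 (p j).2 ≤ |(i : ℝ) - j| := fun i j h => by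
      refine (dist_le_Ico_sum_of_dist_le (f := fun j => (p j).2) h (d := fun _ => 1)
        (fun _ _ => hp1 _)).trans ?_
      rw [abs_sub_comm]
      simp [Nat.cast_sub h, le_abs_self]
    intro i j
    rcases le_total i j with h | h
    · exact this i j h
    · rw [dist_comm, abs_sub_comm]; exact this j i h
  obtain ⟨F, hF, hF'⟩ := hx (fun a => G a.1 a.2) (fun a b => by
    rw [← hc.fix _ (hU.dist_mem _ _)]
    refine hc.mono ?_
    simp only [d0]
    split_ifs with h
    · rw [h]; exact G1 _ _ _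
    · have := dist_triangle4 (G a.1 a.2) (G a.1 o) (G b.1 o) (G b.1 b.2)
      have := G2 a.1 b.1
      rw [← G0, ← G0] at this
      linarith [G1 a.1 a.2 o, G1 b.1 o b.2])
  refine ⟨F, A, fun y => e (0, y), hF, hA, LipschitzWith.mk_one fun y z => ?_, fun n => ?_⟩
  · rw [he]; exact (hc.le _).trans (by simp [d0])
  · obtain ⟨j, hj⟩ := hp2 n
    refine ⟨j, fun y => ?_⟩
    have : ∀ j, A^[j] (e (0, y)) = e (j, y) := fun j => by
      induction j with
      | zero => rfl
      | succ j ih => rw [Function.iterate_succ_apply', ih, hA']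
    rw [this, hF']
    simp [G, hj]

def enc (m : U × U → U) : ∀ n, (Fin (n + 1) → U) → U
  | 0, x => x 0
  | n + 1, x => m (x 0, enc m n (Fin.tail x))

def dec (p q : U → U) : ∀ n, U → Fin (n + 1) → U
  | 0, y => fun _ => y
  | n + 1, y => Fin.cons (p y) (dec p q n (q y))

lemma no_chain [Nonempty U] (hU : IsUrysohn U D) (hc : Cap D τ) (C : ℕ → Ops U)
    (h1 : ∀ i, IsClone (C i)) (h2 : ∀ i, C i < Pol U) (h3 : Monotone C) : ⨆ i, C i ≠ Pol U := by
  haveI := hU.countable
  intro h
  have mem : ∀ n (f : (Fin (n + 1) → U) → U), LipschitzWith 1 f → ∃ i, f ∈ C i n := by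
    intro n f hf
    have : f ∈ (⨆ i, C i) n := by rw [h]; exact hf
    simpa using this
  have mem1 : ∀ f : U → U, LipschitzWith 1 f → ∃ i, ∀ j ≥ i, ∀ n, ∀ g ∈ C j n,
      (fun x => f (g x)) ∈ C j n := by
    intro f hf
    obtain ⟨i, hi⟩ := mem 0 (fun x => f (x 0)) (lc hf (LipschitzWith.eval 0))
    exact ⟨i, fun j hj n g hg => (h1 j).2 0 n _ (fun _ => g) (h3 hj 0 hi) (fun _ => hg)⟩
  obtain ⟨m, hm, hx⟩ := nice hU hc (X := U × U) dist dist_self dist_comm dist_triangle
    (fun a b => hc.max _ (hU.dist_mem _ _) _ (hU.dist_mem _ _))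
  obtain ⟨p, hp, hp'⟩ := hx Prod.fst (fun a b => le_max_left _ _)
  obtain ⟨q, hq, hq'⟩ := hx Prod.snd (fun a b => le_max_right _ _)
  have de : ∀ n x, dec p q n (enc m n x) = x := by
    intro n
    induction n with
    | zero => intro x; funext i; simp [dec, enc, Fin.fin_one_eq_zero i]
    | succ n ih => intro x; simp [dec, enc, hp', hq', ih]
  have dl : ∀ n, LipschitzWith 1 (dec p q n) := by
    intro n
    induction n with
    | zero => exact LipschitzWith.mk_one fun y z => (dist_pi_le_iff dist_nonneg).2 fun _ => le_rfl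
    | succ n ih =>
      refine LipschitzWith.mk_one fun y z => (dist_pi_le_iff dist_nonneg).2 fun i => ?_
      refine Fin.cases ?_ (fun i => ?_) i
      · simpa [dec] using hp.dist_le_mul y z
      · simp only [dec, Fin.cons_succ]
        refine (dist_le_pi_dist _ _ i).trans ?_
        simpa using (ih.comp hq).dist_le_mul y z
  have : ∀ i, ∃ n, ∃ f : (Fin (n + 1) → U) → U, LipschitzWith 1 f ∧ f ∉ C i n := by
    intro i
    by_contra hcon
    push Not at hcon
    exact (h2 i).not_ge hcon
  choose n f hf hf' using this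
  obtain ⟨F, A, B, hF, hA, hB, hs⟩ := sierp hU hc (fun i y => f i (dec p q (n i) y))
    (fun i => lc (hf i) (dl (n i)))
  obtain ⟨i1, g1⟩ := mem1 F hF
  obtain ⟨i2, g2⟩ := mem1 A hA
  obtain ⟨i3, g3⟩ := mem1 B hB
  obtain ⟨i4, g4⟩ := mem 1 (fun x => m (x 0, x 1)) (LipschitzWith.mk_one fun x y => by
    rw [hm]; exact max_le (dist_le_pi_dist _ _ 0) (dist_le_pi_dist _ _ 1))
  obtain ⟨i, a1, a2, a3, a4⟩ : ∃ i, i1 ≤ i ∧ i2 ≤ i ∧ i3 ≤ i ∧ i4 ≤ i :=
    ⟨i1 + i2 + i3 + i4, by omega, by omega, by omega, by omega⟩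
  have en : ∀ k, enc m k ∈ C i k := by
    intro k
    induction k with
    | zero => exact (h1 i).1 0 0
    | succ k ih =>
      refine (h1 i).2 1 (k + 1) _ ![fun x => x 0, fun x => enc m k (Fin.tail x)] (h3 a4 1 g4) ?_
      intro j
      fin_cases j
      · exact (h1 i).1 _ 0
      · exact (h1 i).2 k (k + 1) _ (fun j x => x j.succ) ih (fun j => (h1 i).1 _ _)
  obtain ⟨j, hj⟩ := hs i
  have it : ∀ j, (fun x => A^[j] (B (enc m (n i) x))) ∈ C i (n i) := by
    intro j
    induction j with
    | zero => exact g3 i a3 _ _ (en _)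
    | succ j ih => simpa only [Function.iterate_succ_apply'] using g2 i a2 _ _ ih
  have := g1 i a1 _ _ (it j)
  simp only [← hj, de] at this
  exact hf' i this

def lev {A : Type} (G : Set (Σ n, (Fin (n + 1) → A) → A)) : ℕ → Ops A
  | 0, _ => range fun i x => x i
  | k + 1, m => lev G k m ∪ ⋃ g ∈ G, (fun (t : Fin (g.1 + 1) → (Fin (m + 1) → A) → A) x =>
      g.2 (fun i => t i x)) '' {t | ∀ i, t i ∈ lev G k m}

lemma lev_mono {A : Type} (G : Set (Σ n, (Fin (n + 1) → A) → A)) (m : ℕ) :
    Monotone fun k => lev G k m := monotone_nat_of_le_succ fun _ => subset_union_left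

lemma small {A : Type} (G : Set (Σ n, (Fin (n + 1) → A) → A)) (hG : G.Countable) (P : Ops A)
    (hP : IsClone P) (h : ∀ g ∈ G, g.2 ∈ P g.1) : ∃ C : Ops A, IsClone C ∧ C ≤ P ∧
      (∀ g ∈ G, g.2 ∈ C g.1) ∧ (C 0).Countable := by
  have app : ∀ g ∈ G, ∀ m (t : Fin (g.1 + 1) → (Fin (m + 1) → A) → A),
      (∀ i, t i ∈ ⋃ k, lev G k m) → (fun x => g.2 (fun i => t i x)) ∈ ⋃ k, lev G k m := by
    intro g hg m t ht
    simp only [mem_iUnion] at ht
    choose k hk using ht
    refine mem_iUnion.2 ⟨Finset.univ.sup k + 1, Or.inr (mem_iUnion₂.2 ⟨g, hg, t, fun i => ?_, rfl⟩)⟩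
    exact lev_mono G m (Finset.le_sup (Finset.mem_univ i)) (hk i)
  have pr : ∀ m (i : Fin (m + 1)), (fun x => x i) ∈ ⋃ k, lev G k m := fun m i =>
    mem_iUnion.2 ⟨0, i, rfl⟩
  refine ⟨fun m => ⋃ k, lev G k m, ⟨pr, fun n m f t hf ht => ?_⟩, fun m => ?_,
    fun g hg => app g hg _ (fun i x => x i) (pr _), countable_iUnion fun k => ?_⟩
  · obtain ⟨k, hk⟩ := mem_iUnion.1 hf
    clear hf
    induction k generalizing f with
    | zero => obtain ⟨i, rfl⟩ := hk; exact ht i
    | succ k ih =>
      rcases hk with hk | hk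
      · exact ih f hk
      · obtain ⟨g, hg, r, hr, rfl⟩ := mem_iUnion₂.1 hk
        exact app g hg m (fun i x => r i (fun j => t j x)) (fun i => ih _ (hr i))
  · refine iUnion_subset fun k => ?_
    induction k with
    | zero => rintro _ ⟨i, rfl⟩; exact hP.1 _ i
    | succ k ih =>
      refine union_subset ih (iUnion₂_subset fun g hg => ?_)
      rintro _ ⟨r, hr, rfl⟩
      exact hP.2 _ _ _ r (h g hg) (fun i => ih (hr i))
  · induction k with
    | zero => exact countable_range _
    | succ k ih => exact ih.union (hG.biUnion fun g _ => (countable_pi fun _ => ih).image _)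

lemma pol_clone : IsClone (Pol U) :=
  ⟨fun _ i => LipschitzWith.eval i, fun _ _ _ g hf hg => by
    have : LipschitzWith 1 (fun x i => g i x) := LipschitzWith.mk_one fun x y =>
      (dist_pi_le_iff dist_nonneg).2 fun i => by simpa using (hg i).dist_le_mul x y
    exact lc hf this⟩

lemma unc [Nonempty U] (hU : IsUrysohn U D) (hc : Cap D τ) : ¬ (Pol U 0).Countable := by
  classical
  obtain ⟨o⟩ := ‹Nonempty U›
  have z := hU.dist_mem o o
  rw [dist_self] at z
  obtain ⟨e, he, hx⟩ := nice hU hc (X := ℕ) (fun a b => if a = b then 0 else 1) (by simp)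
    (fun a b => by simp [eq_comm]) (fun a b c => by
      split_ifs <;> first | (exfalso; omega) | norm_num)
    (fun a b => by split_ifs; exacts [z, hc.one])
  have : ∀ S : Set ℕ, ∃ F : U → U, LipschitzWith 1 F ∧ ∀ a, F (e a) = if a ∈ S then e 0 else e 1 :=
    fun S => hx _ fun a b => by
      by_cases h : a = b
      · simp [h]
      · simp only [h, if_false]; split_ifs <;> simp [he]
  choose F hF hF' using this
  intro h
  have h01 : e 0 ≠ e 1 := fun h => by simpa [h] using he 0 1
  have : (univ : Set (Set ℕ)).Countable := by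
    refine h.preimage_of_injOn (f := fun S (x : Fin 1 → U) => F S (x 0)) (fun S _ T _ h => ?_) |>.mono
      fun S _ => lc (hF S) (LipschitzWith.eval 0)
    ext a
    have := congrFun h (fun _ => e a)
    simp only [hF'] at this
    by_cases h1 : a ∈ S <;> by_cases h2 : a ∈ T <;> simp_all [eq_comm]
  rw [countable_univ_iff] at this
  obtain ⟨f, hf⟩ := exists_injective_nat (Set ℕ)
  exact Function.cantor_injective f hf

theorem result (U : Type) [MetricSpace U]
    (hU : IsUrysohn U QP ∨ IsUrysohn U (QP ∩ Iic 1)) :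
    (∀ G : Set (Σ n, (Fin (n + 1) → U) → U), G.Finite → (∀ g ∈ G, g.2 ∈ Pol U g.1) →
      ∃ C : Ops U, IsClone C ∧ C < Pol U ∧ ∀ g ∈ G, g.2 ∈ C g.1) ∧
    ∀ C : ℕ → Ops U, (∀ i, IsClone (C i)) → (∀ i, C i < Pol U) → Monotone C →
      ⨆ i, C i ≠ Pol U := by
  have mx : ∀ D : Set ℝ, ∀ r ∈ D, ∀ s ∈ D, max r s ∈ D := fun D r hr s hs => by
    rcases max_choice r s with h | h <;> rwa [h]
  have one : (1 : ℝ) ∈ QP := ⟨zero_le_one, 1, by simp⟩
  obtain ⟨D, τ, hU, hc⟩ : ∃ D τ, IsUrysohn U D ∧ Cap D τ := by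
    rcases hU with h | h
    · exact ⟨_, id, h, subset_rfl, fun _ h => h, fun _ _ => rfl, monotone_id, fun _ _ _ _ => le_rfl,
        fun _ => le_rfl, one, mx _⟩
    · refine ⟨_, fun r => min r 1, h, inter_subset_left, fun r hr => ⟨?_, mem_Iic.2 (min_le_right _ _)⟩,
        fun r hr => min_eq_left hr.2, fun a b h => min_le_min_right _ h, fun r s hr hs => ?_,
        fun r => min_le_left _ _, ⟨one, self_mem_Iic⟩, mx _⟩
      · rcases min_choice r 1 with h | h <;> rw [h] <;> assumption
      · simp only [min_def]; split_ifs <;> linarith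
  haveI : Nonempty U := by
    obtain ⟨e, -⟩ := hU.univ Unit (fun x y => by
      have := hc.mem 0 ⟨le_rfl, 0, by simp⟩
      rwa [le_antisymm (hc.le 0) (hc.sub this).1] at this)
    exact ⟨e ()⟩
  refine ⟨fun G hG h => ?_, no_chain hU hc⟩
  obtain ⟨C, c1, c2, c3, c4⟩ := small G hG.countable _ pol_clone h
  exact ⟨C, c1, lt_of_le_of_ne c2 fun e => unc hU hc (e ▸ c4), c3⟩

end Pool.Agent.Results.MP_18f3df_al.Yes
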